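import Pool.Agent.H357R2.SI.Pareto

/-!
# The forward maximal function of the primes follows an exact Pareto law

For an integer `n` and a real `H > 0` let `π(n, H)` be the number of primes in `(n, n + H]`.
For every `lam > 1` the proportion of the integers `n < N` for which
`π(n, H) > lam * H / log n` for at least one real `0 < H ≤ n` tends to `1 / lam`.
-/

open Filter Topology

namespace Pool.Agent.Results.MP_31d0eb_nt.ParetoLaw

theorem result (lam : ℝ) (hlam : 1 < lam) :
    Tendsto (fun N : ℕ => (({n : ℕ | n < N ∧ ∃ H : ℝ, 0 < H ∧ H ≤ n ∧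
        lam * H / Real.log n <
          (((Finset.Ioc n ⌊(n : ℝ) + H⌋₊).filter Nat.Prime).card : ℝ)}.ncard : ℕ) : ℝ) / N)
      atTop (𝓝 (1 / lam)) := by
  classical
  have h := Pool.Agent.H357R2.SI.pareto lam hlam
  have e : ∀ N : ℕ, {n : ℕ | n < N ∧ ∃ H : ℝ, 0 < H ∧ H ≤ n ∧
        lam * H / Real.log n <
          (((Finset.Ioc n ⌊(n : ℝ) + H⌋₊).filter Nat.Prime).card : ℝ)}.ncard =
      Pool.Agent.H357R2.SI.badc lam N := by
    intro N
    unfold Pool.Agent.H357R2.SI.badc
    rw [← Set.ncard_coe_finset]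
    congr 1
    ext n
    simp only [Set.mem_ofPred_eq, Finset.coe_filter, Finset.mem_range, Pool.Agent.H357R2.SI.piS,
      Nat.floor_natCast, not_forall, not_le, exists_prop]
  simp only [e]
  exact h

end Pool.Agent.Results.MP_31d0eb_nt.ParetoLaw
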