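import Pool.Agent.H582SR.Main

/-!
# Primes are uniformly distributed in almost all short intervals at all but `O(1)` dyadic scales

Unconditionally, for every `δ > 0`, at all but boundedly many dyadic scales `H` between `K log N`
and `N`, for all but at most `δ N` of the integers `n < N` the primes of `(n, n + H]` are uniformly
distributed: `|π(n, h) - (h / H) π(n, H)| ≤ δ H / log N` for all `0 ≤ h ≤ H` at once.
-/

set_option autoImplicit false

open Filter Topology

namespace Pool.Agent.Results.MP_31d0eb_nt.UniformScales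

/-- the number of primes in `(a, b]`, so that `primesIn n (n + h)` is `π(n, h)` -/
def primesIn (a b : ℕ) : ℕ := ((Finset.Ioc a b).filter Nat.Prime).card

/-- For every `δ > 0` there is `K` such that for all large `N` there is a set `B` of at most `K`
bad dyadic scales with the following property. For every integer `H` with `K log N ≤ H ≤ N` which
lies in none of the ranges `[2^i, 2^(i+1))`, `i ∈ B`, all but at most `δ N` of the integers `n < N`
satisfy `|π(n, h) - (h / H) π(n, H)| ≤ δ H / log N` simultaneously for all integers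
`0 ≤ h ≤ H`. -/
theorem result : ∀ δ : ℝ, 0 < δ → ∃ K : ℕ, ∀ᶠ N : ℕ in atTop, ∃ B : Finset ℕ, B.card ≤ K ∧
    ∀ H : ℕ, (K : ℝ) * Real.log N ≤ H → H ≤ N → (∀ i ∈ B, ¬ (2 ^ i ≤ H ∧ H < 2 ^ (i + 1))) →
      (({n : ℕ | n < N ∧ ∃ h ≤ H, δ * H / Real.log N <
        |(primesIn n (n + h) : ℝ) - h / H * (primesIn n (n + H) : ℝ)|}).ncard : ℝ) ≤ δ * N :=
  fun δ hδ => Pool.Agent.H582SR.main δ hδ

end Pool.Agent.Results.MP_31d0eb_nt.UniformScales
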